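import Pool.Agent.Helper80_RS2.Stmts

/-!
# MP_ff6f12_co, squad RS2: modules KTT, KNN, SMS, BIG (helper60)
-/

set_option autoImplicit false

open SimpleGraph

namespace Pool.Agent.RS81.H60

open Pool.Agent.RS80 Pool.Agent.RS80.H60

variable {V W K L : Type}

/-! ### Two-colourable graphs -/

theorem colour_bool {H : SimpleGraph W} (h : H.Colorable 2) :
    ∃ c : W → Bool, ∀ x y, H.Adj x y → c x ≠ c y := by
  obtain ⟨c⟩ := h
  refine ⟨fun x => decide (c x = 0), fun x y hxy => ?_⟩
  have := c.valid hxy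
  intro h2
  apply this
  have h3 : (c x = 0) ↔ (c y = 0) := by simpa using h2
  omega

theorem pendL_colorable {B : SimpleGraph V} (hc : B.Colorable 2) (ℓ : V → ℕ) :
    (pendL B ℓ).Colorable 2 := by
  obtain ⟨c, hc⟩ := colour_bool hc
  let C : (pendL B ℓ).Coloring Bool := Coloring.mk (fun x => match x with
    | .inl u => c u
    | .inr z => ! c z.1) (by
      rintro (u | z) (v | w) h
      · exact hc u v h
      · have : u = w.1 := h
        subst this
        simp
      · have : v = z.1 := h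
        subst this
        simp
      · exact h.elim)
  simpa using C.colorable

theorem pendL_connected {B : SimpleGraph V} (hB : B.Connected) (ℓ : V → ℕ) :
    (pendL B ℓ).Connected := by
  obtain ⟨v⟩ := hB.nonempty
  have h1 : ∀ u : V, (pendL B ℓ).Reachable (Sum.inl u) (Sum.inl v) := by
    intro u
    have := hB.preconnected u v
    let f : B →g pendL B ℓ := ⟨Sum.inl, fun {a b} h => h⟩
    exact this.map f
  have h2 : ∀ x : V ⊕ Σ v, Fin (ℓ v), (pendL B ℓ).Reachable x (Sum.inl v) := by
    rintro (u | z)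
    · exact h1 u
    · refine Reachable.trans ?_ (h1 z.1)
      exact (show (pendL B ℓ).Adj (Sum.inr z) (Sum.inl z.1) from rfl).reachable
  have : Nonempty (V ⊕ Σ v, Fin (ℓ v)) := ⟨Sum.inl v⟩
  exact ⟨fun x y => (h2 x).trans (h2 y).symm⟩

theorem pendL_adj {B : SimpleGraph V} [Finite V] (hB : TwoConn B) (ℓ : V → ℕ)
    (x : V ⊕ Σ v, Fin (ℓ v)) : ∃ y, (pendL B ℓ).Adj x y := by
  rcases x with u | z
  · obtain ⟨w, _, _, h, _⟩ := two_nbrs hB u
    exact ⟨Sum.inl w, h⟩
  · exact ⟨Sum.inl z.1, rfl⟩

/-! ### KTT -/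

/-- KTT. -/
theorem ktt : KttStmt := by
  intro W _ H hcol
  obtain ⟨c, hc⟩ := colour_bool hcol
  obtain ⟨h, hh⟩ : ∃ h, Nat.card W = h := ⟨_, rfl⟩
  have hH := le_cbg hc hh
  refine ⟨2 ^ (2 * h) * h + 2 * h, ?_⟩
  intro K _ G hG hcon
  obtain ⟨R, S, hRS, hR, hS⟩ := hG
  obtain ⟨f⟩ := hcon
  let u : Fin (2 * h) → K := fun i => f (Sum.inl (Fin.castLE (by omega) i))
  let v : Fin (2 ^ (2 * h) * h + 2 * h) → K := fun j => f (Sum.inr j)
  have hu : Function.Injective u := by
    intro i j hij
    have := Sum.inl_injective (f.injective hij)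
    exact Fin.castLE_injective _ this
  have hv : Function.Injective v := by
    intro i j hij
    exact Sum.inr_injective (f.injective hij)
  have hG : ∀ i j, G.Adj (u i) (v j) := by
    intro i j
    apply f.toHom.map_adj
    rw [cbg_iff]
    left; simp
  obtain ⟨A, J, hJ, hAJ⟩ := pattern (m := 2 * h) (n' := h) (N := 2 ^ (2 * h) * h + 2 * h)
    (by omega) (fun i j => R.Adj (u i) (v j))
  by_cases hA : h ≤ A.card
  · apply hR
    exact hH.trans (embed hu hv hA hJ fun i hi j hj => (hAJ j hj i).1 hi)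
  · apply hS
    have hA' : h ≤ Aᶜ.card := by
      rw [Finset.card_compl, Fintype.card_fin]
      omega
    refine hH.trans (embed hu hv hA' hJ fun i hi j hj => ?_)
    have h1 := hG i j
    rw [← hRS, sup_adj] at h1
    rcases h1 with h1 | h1
    · exact absurd ((hAJ j hj i).2 h1) (Finset.mem_compl.1 hi)
    · exact h1

/-! ### The smaller side -/

theorem smallSide_spec [Finite W] {H : SimpleGraph W} (hcol : H.Colorable 2) :
    ∃ N : ℕ, H ⊑ completeBipartiteGraph (Fin (smallSide H)) (Fin N) := by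
  obtain ⟨c, hc⟩ := colour_bool hcol
  have hne : {m | ∃ N : ℕ, H ⊑ completeBipartiteGraph (Fin m) (Fin N)}.Nonempty :=
    ⟨_, _, le_cbg hc rfl⟩
  exact Nat.sInf_mem hne

theorem smallSide_le [Finite W] {H : SimpleGraph W} (hcol : H.Colorable 2) :
    smallSide H ≤ Nat.card W := by
  obtain ⟨c, hc⟩ := colour_bool hcol
  exact Nat.sInf_le ⟨_, le_cbg hc rfl⟩

theorem lt_smallSide {H : SimpleGraph W} {m : ℕ} (h : m < smallSide H) (N : ℕ) :
    ¬ H ⊑ completeBipartiteGraph (Fin m) (Fin N) := by
  intro h1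
  exact absurd (Nat.sInf_le (s := {m | ∃ N : ℕ, H ⊑ completeBipartiteGraph (Fin m) (Fin N)})
    ⟨N, h1⟩) (not_le.2 h)

theorem smallSide_mono [Finite W] {B : SimpleGraph V} {H : SimpleGraph W} (hcol : H.Colorable 2)
    (h : B ⊑ H) : smallSide B ≤ smallSide H := by
  obtain ⟨N, hN⟩ := smallSide_spec hcol
  exact Nat.sInf_le ⟨N, h.trans hN⟩

theorem two_le_smallSide [Finite V] {B : SimpleGraph V} (hB : TwoConn B) (hcol : B.Colorable 2) :
    2 ≤ smallSide B := by
  by_contra hlt
  push Not at hlt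
  obtain ⟨N, f⟩ := smallSide_spec hcol
  obtain ⟨f⟩ := f
  have hsub : ∀ x y : Fin (smallSide B), x = y := by
    intro x y
    apply Fin.ext
    omega
  obtain ⟨v⟩ := hB.2.1.nonempty
  obtain ⟨w, w', hww, h1, h2⟩ := two_nbrs hB v
  have key : ∀ x y, B.Adj x y → (f x).isLeft ∨ (f y).isLeft := by
    intro x y hxy
    have := f.toHom.map_adj hxy
    rw [cbg_iff] at this
    rcases this with h | h
    · left; exact h.1
    · right; exact h.2
  have inj : ∀ x y, (f x).isLeft → (f y).isLeft → x = y := by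
    intro x y hx hy
    apply f.injective
    obtain ⟨a, ha⟩ := Sum.isLeft_iff.1 hx
    obtain ⟨b, hb⟩ := Sum.isLeft_iff.1 hy
    rw [Copy.coe_toHom, ha, hb, hsub a b]
  by_cases hv : (f v).isLeft
  · obtain ⟨z, z', hzz, h3, h4⟩ := two_nbrs hB w
    have hwl : ¬ (f w).isLeft := fun h => h1.ne (inj _ _ hv h)
    have e1 : (f z).isLeft := (key w z h3).resolve_left hwl
    have e2 : (f z').isLeft := (key w z' h4).resolve_left hwl
    exact hzz (inj _ _ e1 e2)
  · have e1 : (f w).isLeft := (key v w h1).resolve_left hv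
    have e2 : (f w').isLeft := (key v w' h2).resolve_left hv
    exact hww (inj _ _ e1 e2)

/-! ### Complete graphs -/

/-- A complete graph with an `H`-free colouring: two cliques of sizes `h-1`, `a-1` in one colour. -/
theorem inC_top [Finite W] {H : SimpleGraph W} (hconn : H.Connected) (hcol : H.Colorable 2)
    (ha2 : 2 ≤ smallSide H) :
    InC H (⊤ : SimpleGraph (Fin (Nat.card W + smallSide H - 2))) := by
  obtain ⟨h, hh⟩ : ∃ h, Nat.card W = h := ⟨_, rfl⟩
  obtain ⟨a, ha⟩ : ∃ a, smallSide H = a := ⟨_, rfl⟩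
  have hah : a ≤ h := by rw [← ha, ← hh]; exact smallSide_le hcol
  rw [ha] at ha2
  rw [hh, ha]
  let R : SimpleGraph (Fin (h + a - 2)) :=
    { Adj := fun x y => x ≠ y ∧ (((x : ℕ) < h - 1) ↔ ((y : ℕ) < h - 1))
      symm := ⟨fun x y hxy => ⟨hxy.1.symm, hxy.2.symm⟩⟩
      loopless := ⟨fun x hx => hx.1 rfl⟩ }
  let S : SimpleGraph (Fin (h + a - 2)) :=
    { Adj := fun x y => ¬ (((x : ℕ) < h - 1) ↔ ((y : ℕ) < h - 1))
      symm := ⟨fun x y hxy hyx => hxy hyx.symm⟩
      loopless := ⟨fun x hx => hx Iff.rfl⟩ }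
  refine ⟨R, S, ?_, ?_, ?_⟩
  · ext x y
    rw [sup_adj, top_adj]
    constructor
    · rintro (h2 | h2)
      · exact h2.1
      · rintro rfl
        exact h2 Iff.rfl
    · intro h2
      by_cases h3 : ((x : ℕ) < h - 1) ↔ ((y : ℕ) < h - 1)
      · exact Or.inl ⟨h2, h3⟩
      · exact Or.inr h3
  · rintro ⟨f⟩
    obtain ⟨x0⟩ := hconn.nonempty
    have hconst : ∀ x, (((f x : Fin (h + a - 2)) : ℕ) < h - 1 ↔
        ((f x0 : Fin (h + a - 2)) : ℕ) < h - 1) := by
      intro x
      obtain ⟨w⟩ := hconn.preconnected x x0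
      induction w with
      | nil => exact Iff.rfl
      | cons hab _ ih => exact ((f.toHom.map_adj hab).2).trans ih
    by_cases hx : ((f x0 : Fin (h + a - 2)) : ℕ) < h - 1
    · have h2 : Nat.card W ≤ Nat.card (Fin (h - 1)) := by
        refine Nat.card_le_card_of_injective
          (fun x : W => (⟨(f x : Fin (h + a - 2)), (hconst x).2 hx⟩ : Fin (h - 1))) ?_
        intro x y hxy
        have h4 : ((f x : Fin (h + a - 2)) : ℕ) = ((f y : Fin (h + a - 2)) : ℕ) :=
          congrArg (fun z : Fin (h - 1) => (z : ℕ)) hxy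
        exact f.injective (Fin.ext h4)
      rw [hh, Nat.card_eq_fintype_card, Fintype.card_fin] at h2
      omega
    · have hge : ∀ x, h - 1 ≤ ((f x : Fin (h + a - 2)) : ℕ) := by
        intro x
        by_contra h3
        exact hx ((hconst x).1 (by omega))
      have h2 : Nat.card W ≤ Nat.card (Fin (a - 1)) := by
        refine Nat.card_le_card_of_injective
          (fun x : W => (⟨((f x : Fin (h + a - 2)) : ℕ) - (h - 1), by
            have := (f x : Fin (h + a - 2)).2
            have := hge x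
            omega⟩ : Fin (a - 1))) ?_
        intro x y hxy
        have h4 : ((f x : Fin (h + a - 2)) : ℕ) - (h - 1) =
            ((f y : Fin (h + a - 2)) : ℕ) - (h - 1) := congrArg Fin.val hxy
        have h5 := hge x
        have h6 := hge y
        have h7 : ((f x : Fin (h + a - 2)) : ℕ) = ((f y : Fin (h + a - 2)) : ℕ) := by omega
        exact f.injective (Fin.ext h7)
      rw [hh, Nat.card_eq_fintype_card, Fintype.card_fin] at h2
      omega
  · rintro ⟨f⟩
    refine lt_smallSide (m := a - 1) (by rw [ha]; omega) (h - 1) ?_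
    refine IsContained.trans ⟨f⟩ ?_
    refine ⟨⟨⟨fun x => if hx : (x : ℕ) < h - 1 then .inr ⟨x, hx⟩ else
      .inl ⟨(x : ℕ) - (h - 1), by have := x.2; omega⟩, ?_⟩, ?_⟩⟩
    · intro x y hxy
      rw [cbg_iff]
      by_cases hx : (x : ℕ) < h - 1
      · by_cases hy : (y : ℕ) < h - 1
        · exact absurd (⟨fun _ => hy, fun _ => hx⟩) hxy
        · right
          rw [dif_pos hx, dif_neg hy]
          exact ⟨rfl, rfl⟩
      · by_cases hy : (y : ℕ) < h - 1
        · left
          rw [dif_neg hx, dif_pos hy]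
          exact ⟨rfl, rfl⟩
        · exact absurd (⟨fun h5 => absurd h5 hx, fun h5 => absurd h5 hy⟩) hxy
    · intro x y hxy
      change (if hx : (x : ℕ) < h - 1 then (.inr ⟨x, hx⟩ : Fin (a - 1) ⊕ Fin (h - 1)) else
        .inl ⟨(x : ℕ) - (h - 1), by have := x.2; omega⟩) = (if hy : (y : ℕ) < h - 1 then
        .inr ⟨y, hy⟩ else .inl ⟨(y : ℕ) - (h - 1), by have := y.2; omega⟩) at hxy
      split_ifs at hxy with hx hy hy
      · have := congrArg Fin.val (Sum.inr_injective hxy)
        exact Fin.ext this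
      · have := congrArg Fin.val (Sum.inl_injective hxy)
        simp only at this
        exact Fin.ext (by omega)

theorem two_le_pendL [Finite V] {B : SimpleGraph V} (hB : TwoConn B) (hcol : B.Colorable 2)
    (ℓ : V → ℕ) : 2 ≤ smallSide (pendL B ℓ) :=
  (two_le_smallSide hB hcol).trans (smallSide_mono (pendL_colorable hcol ℓ) (core_isContained B ℓ))

/-- KNN. -/
theorem knn : KnnStmt := by
  intro V _ B ℓ hB hcol _ harr heq
  exact not_arrows_iff.2 (inC_top (pendL_connected hB.2.1 ℓ) (pendL_colorable hcol ℓ)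
    (two_le_pendL hB hcol ℓ)) ((heq _ _).1 harr)

/-- BIG. -/
theorem big (ktt : KttStmt) (knn : KnnStmt) : BigStmt := by
  intro V _ B hB hcol
  obtain ⟨t, ht⟩ := ktt V B hcol
  have hA : Arrows (⊤ : SimpleGraph (Fin (2 * t))) B := by
    by_contra hcon
    refine ht _ _ (not_arrows_iff.1 hcon) ?_
    let F : Fin t ⊕ Fin t → Fin (2 * t) := fun x => match x with
      | .inl i => ⟨i, by have := i.2; omega⟩
      | .inr j => ⟨t + j, by have := j.2; omega⟩
    have hF : Function.Injective F := by
      rintro (i | i) (j | j) h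
      · have h3 : (i : ℕ) = j := congrArg (fun z : Fin (2 * t) => (z : ℕ)) h
        exact congrArg Sum.inl (Fin.ext h3)
      · have h3 : (i : ℕ) = t + j := congrArg (fun z : Fin (2 * t) => (z : ℕ)) h
        have := i.2
        omega
      · have h3 : t + (i : ℕ) = j := congrArg (fun z : Fin (2 * t) => (z : ℕ)) h
        have := j.2
        omega
      · have h3 : t + (i : ℕ) = t + j := congrArg (fun z : Fin (2 * t) => (z : ℕ)) h
        exact congrArg Sum.inr (Fin.ext (by omega))
    refine ⟨⟨⟨F, ?_⟩, hF⟩⟩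
    intro x y hxy
    rw [top_adj]
    intro h2
    exact hxy.ne (hF h2)
  refine ⟨2 * t, hA, fun ℓ hn hl => knn V B ℓ hB hcol hl ?_⟩
  have ha := two_le_pendL hB hcol ℓ
  have hle : 2 * t ≤ Nat.card (V ⊕ Σ v, Fin (ℓ v)) + smallSide (pendL B ℓ) - 2 := by omega
  have hc : (⊤ : SimpleGraph (Fin (2 * t))) ⊑
      (⊤ : SimpleGraph (Fin (Nat.card (V ⊕ Σ v, Fin (ℓ v)) + smallSide (pendL B ℓ) - 2))) := by
    refine ⟨⟨⟨fun x => Fin.castLE hle x, ?_⟩, Fin.castLE_injective hle⟩⟩
    intro x y hxy
    rw [top_adj] at hxy ⊢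
    exact fun h => hxy (Fin.castLE_injective hle h)
  exact arrows_mono hc hA

/-! ### SMS -/

/-- splitting the hubs of a complete bipartite graph -/
theorem inC_cbg {H : SimpleGraph W} (hH : ∀ x, ∃ y, H.Adj x y) {p q N : ℕ}
    (hp : p < smallSide H) (hq : q < smallSide H) :
    InC H (completeBipartiteGraph (Fin (p + q)) (Fin N)) := by
  let R : SimpleGraph (Fin (p + q) ⊕ Fin N) :=
    { Adj := fun x y => match x, y with
        | .inl i, .inr _ => (i : ℕ) < p
        | .inr _, .inl i => (i : ℕ) < p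
        | _, _ => False
      symm := ⟨by rintro (i | i) (j | j) h <;> exact h⟩
      loopless := ⟨by rintro (i | i) h <;> exact h⟩ }
  let S : SimpleGraph (Fin (p + q) ⊕ Fin N) :=
    { Adj := fun x y => match x, y with
        | .inl i, .inr _ => p ≤ (i : ℕ)
        | .inr _, .inl i => p ≤ (i : ℕ)
        | _, _ => False
      symm := ⟨by rintro (i | i) (j | j) h <;> exact h⟩
      loopless := ⟨by rintro (i | i) h <;> exact h⟩ }
  refine ⟨R, S, ?_, ?_, ?_⟩
  · ext x y
    rw [sup_adj, cbg_iff]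
    rcases x with i | i <;> rcases y with j | j
    · show False ∨ False ↔ _; simp
    · show (i : ℕ) < p ∨ p ≤ (i : ℕ) ↔ _
      exact ⟨fun _ => Or.inl ⟨rfl, rfl⟩, fun _ => lt_or_ge _ _⟩
    · show (j : ℕ) < p ∨ p ≤ (j : ℕ) ↔ _
      exact ⟨fun _ => Or.inr ⟨rfl, rfl⟩, fun _ => lt_or_ge _ _⟩
    · show False ∨ False ↔ _; simp
  · rintro ⟨f⟩
    refine lt_smallSide hp N ⟨?_⟩
    have hl : ∀ x i, f x = Sum.inl i → (i : ℕ) < p := by
      intro x i hi
      obtain ⟨y, hy⟩ := hH x
      have h1 := f.toHom.map_adj hy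
      rw [Copy.coe_toHom, hi] at h1
      rcases hfy : f y with j | j
      · rw [hfy] at h1; exact h1.elim
      · rw [hfy] at h1; exact h1
    refine ⟨⟨fun x => match h : f x with
      | .inl i => .inl ⟨i, hl x i h⟩
      | .inr j => .inr j, ?_⟩, ?_⟩
    · intro x y hxy
      have h1 := f.toHom.map_adj hxy
      rw [Copy.coe_toHom] at h1
      rw [cbg_iff]
      split <;> split
      · rename_i i hi j hj
        rw [hi, hj] at h1; exact h1.elim
      · left; simp
      · right; simp
      · rename_i i hi j hj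
        rw [hi, hj] at h1; exact h1.elim
    · intro x y hxy
      apply f.injective
      rw [Copy.coe_toHom]
      change (match h : f x with
        | .inl i => (.inl ⟨i, hl x i h⟩ : Fin p ⊕ Fin N)
        | .inr j => .inr j) = (match h : f y with
        | .inl i => .inl ⟨i, hl y i h⟩
        | .inr j => .inr j) at hxy
      split at hxy <;> split at hxy
      · rename_i i hi j hj
        rw [hi, hj]
        have := congrArg Fin.val (Sum.inl_injective hxy)
        exact congrArg Sum.inl (Fin.ext this)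
      · exact absurd hxy (by simp)
      · exact absurd hxy (by simp)
      · rename_i i hi j hj
        rw [hi, hj]
        exact congrArg Sum.inr (Sum.inr_injective hxy)
  · rintro ⟨f⟩
    refine lt_smallSide hq N ⟨?_⟩
    have hl : ∀ x i, f x = Sum.inl i → p ≤ (i : ℕ) := by
      intro x i hi
      obtain ⟨y, hy⟩ := hH x
      have h1 := f.toHom.map_adj hy
      rw [Copy.coe_toHom, hi] at h1
      rcases hfy : f y with j | j
      · rw [hfy] at h1; exact h1.elim
      · rw [hfy] at h1; exact h1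
    refine ⟨⟨fun x => match h : f x with
      | .inl i => .inl ⟨(i : ℕ) - p, by have := i.2; have := hl x i h; omega⟩
      | .inr j => .inr j, ?_⟩, ?_⟩
    · intro x y hxy
      have h1 := f.toHom.map_adj hxy
      rw [Copy.coe_toHom] at h1
      rw [cbg_iff]
      split <;> split
      · rename_i i hi j hj
        rw [hi, hj] at h1; exact h1.elim
      · left; simp
      · right; simp
      · rename_i i hi j hj
        rw [hi, hj] at h1; exact h1.elim
    · intro x y hxy
      apply f.injective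
      rw [Copy.coe_toHom]
      change (match h : f x with
        | .inl i => (.inl ⟨(i : ℕ) - p, by have := i.2; have := hl x i h; omega⟩ :
            Fin q ⊕ Fin N)
        | .inr j => .inr j) = (match h : f y with
        | .inl i => .inl ⟨(i : ℕ) - p, by have := i.2; have := hl y i h; omega⟩
        | .inr j => .inr j) at hxy
      split at hxy <;> split at hxy
      · rename_i i hi j hj
        rw [hi, hj]
        have h5 := congrArg Fin.val (Sum.inl_injective hxy)
        simp only at h5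
        have h6 := hl x i hi
        have h7 := hl y j hj
        exact congrArg Sum.inl (Fin.ext (by omega))
      · exact absurd hxy (by simp)
      · exact absurd hxy (by simp)
      · rename_i i hi j hj
        rw [hi, hj]
        exact congrArg Sum.inr (Sum.inr_injective hxy)

/-- `K_{2a-1,N}` arrows every bipartite graph with smaller side `a`. -/
theorem arrows_cbg [Finite W] {H : SimpleGraph W} (hcol : H.Colorable 2) (ha : 1 ≤ smallSide H) :
    ∃ N : ℕ, Arrows (completeBipartiteGraph
      (Fin (smallSide H + (smallSide H - 1))) (Fin N)) H := by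
  obtain ⟨N₀, hN₀⟩ := smallSide_spec hcol
  obtain ⟨a, hae⟩ : ∃ a, smallSide H = a := ⟨_, rfl⟩
  rw [hae] at hN₀ ha ⊢
  obtain ⟨m, hm⟩ : ∃ m, m = a + (a - 1) := ⟨_, rfl⟩
  rw [← hm]
  refine ⟨2 ^ m * N₀, ?_⟩
  by_contra hcon
  obtain ⟨R, S, hRS, hR, hS⟩ := not_arrows_iff.1 hcon
  obtain ⟨A, J, hJ, hAJ⟩ := pattern (m := m) (n' := N₀) (N := 2 ^ m * N₀) le_rfl
    (fun i j => R.Adj (.inl i) (.inr j))
  have hAc : ∀ i, i ∉ A → ∀ j ∈ J, S.Adj (.inl i) (.inr j) := by
    intro i hi j hj
    have h1 : (R ⊔ S).Adj (.inl i) (.inr j) := by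
      rw [hRS, cbg_iff]
      left; simp
    exact h1.resolve_left fun h => hi ((hAJ j hj i).2 h)
  by_cases hA : a ≤ A.card
  · exact hR (hN₀.trans (embed (u := Sum.inl) (v := Sum.inr) Sum.inl_injective
      Sum.inr_injective hA hJ fun i hi j hj => (hAJ j hj i).1 hi))
  · have hA' : a ≤ Aᶜ.card := by
      rw [Finset.card_compl, Fintype.card_fin]
      omega
    exact hS (hN₀.trans (embed (u := Sum.inl) (v := Sum.inr) Sum.inl_injective
      Sum.inr_injective hA' hJ fun i hi j hj => hAc i (Finset.mem_compl.1 hi) j hj))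

/-- SMS. -/
theorem sms : SmsStmt := by
  intro V _ B ℓ hB hcol hlt heq
  have ha2 := two_le_smallSide hB hcol
  obtain ⟨N, hN⟩ := arrows_cbg hcol (by omega)
  have h1 : InC (pendL B ℓ) (completeBipartiteGraph
      (Fin (smallSide B + (smallSide B - 1))) (Fin N)) :=
    inC_cbg (pendL_adj hB ℓ) hlt (by omega)
  have e : completeBipartiteGraph (Fin (smallSide B + (smallSide B - 1))) (Fin N) ≃g
      (completeBipartiteGraph (Fin (smallSide B + (smallSide B - 1))) (Fin N)).map
        (finSumFinEquiv (m := smallSide B + (smallSide B - 1)) (n := N)) := Iso.map _ _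
  have h2 := arrows_of_iso e hN
  have h3 := (heq _ _).1 h2
  exact not_arrows_iff.2 h1 (arrows_of_iso e.symm h3)

end Pool.Agent.RS81.H60
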