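import Pool.Agent.Helper60_RS2.Ktt
import Pool.Agent.Helper60_RS.Stw

/-!
# MP_ff6f12_co, squad RS2: module STW (helper60)
-/

set_option autoImplicit false

open SimpleGraph

namespace Pool.Agent.RS81.H60

open Pool.Agent.RS80
open Pool.Agent.RS80.H60

/-- STW. -/
theorem stw : StwStmt := by
  intro V _ B ℓ hB hZ hncl
  obtain ⟨K, _, G, v, hG, hcone⟩ : ∃ (K : Type) (_ : Finite K) (G : SimpleGraph K) (v : K),
      InC (pendL B ℓ) G ∧ ¬ InC (pendL B ℓ) (cone G {v}) := by
    by_contra hcon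
    apply hncl
    intro K _ G v hG
    by_contra hno
    exact hcon ⟨K, inferInstance, G, v, hG, hno⟩
  classical
  have hH : ∀ x, ∃ y, (pendL B ℓ).Adj x y := pendL_adj hB ℓ
  -- the minimum degree of `H`
  have hdelta : @SimpleGraph.minDegree (V ⊕ Σ v, Fin (ℓ v)) (pendL B ℓ) (Fintype.ofFinite (V ⊕ Σ v, Fin (ℓ v))) _ = 1 := by
    let := Fintype.ofFinite (V ⊕ Σ v, Fin (ℓ v))
    obtain ⟨z, hz⟩ := hZ
    have : Nonempty (V ⊕ Σ v, Fin (ℓ v)) := ⟨Sum.inr ⟨z, ⟨0, hz⟩⟩⟩
    apply le_antisymm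
    · refine (minDegree_le_degree (pendL B ℓ) (Sum.inr ⟨z, ⟨0, hz⟩⟩)).trans ?_
      refine (degree_eq_one_iff_existsUnique_adj.2 ⟨Sum.inl z, rfl, ?_⟩).le
      rintro (u | w) h
      · exact congrArg Sum.inl h
      · exact h.elim
    · apply le_minDegree_of_forall_le_degree
      intro x
      rw [Nat.succ_le_iff, degree_pos_iff_exists_adj]
      exact hH x
  -- the smallest graph
  have hex : ∃ k, ∃ (L : Type) (_ : Finite L) (G' : SimpleGraph L), Arrows G' (pendL B ℓ) ∧
      G' ⊑ cone G {v} ∧ mu G' = k :=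
    ⟨_, Option K, inferInstance, cone G {v}, by
      by_contra h
      exact hcone (not_arrows_iff.1 h), IsContained.refl _, rfl⟩
  obtain ⟨L, _, G', hG', hGc, hmu⟩ := Nat.find_spec hex
  have hmin := fun (k : ℕ) (hk : k < Nat.find hex) => Nat.find_min hex hk
  obtain ⟨n, ⟨e⟩⟩ : ∃ n, Nonempty (Fin n ≃ L) := ⟨Nat.card L, ⟨(Finite.equivFin L).symm⟩⟩
  have he : G'.comap e ≃g G' := Iso.comap e G'
  have hc1 : G'.comap e ⊑ cone G {v} := IsContained.trans ⟨he.toEmbedding.toCopy⟩ hGc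
  have hMR : MinRamsey (G'.comap e) (pendL B ℓ) := by
    refine ⟨arrows_of_iso he.symm hG', ?_⟩
    intro G₂ hne hA
    have h1 := mu_lt G₂ hne
    rw [mu_comap, hmu] at h1
    exact hmin _ h1 ⟨G₂.verts, inferInstance, G₂.coe, hA,
      IsContained.trans G₂.coe_isContained hc1, rfl⟩
  have h01 : ∀ (n : ℕ) (G₁ : SimpleGraph (Fin n)), MinRamsey G₁ (pendL B ℓ) →
      1 ≤ G₁.minDegree := by
    intro n G₁ h₁
    have : Nonempty (Fin n) := by
      by_contra hempty
      rw [not_nonempty_iff] at hempty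
      obtain ⟨z, hz⟩ := hZ
      rcases h₁.1 ⊥ bot_le with ⟨⟨f⟩⟩ | ⟨⟨f⟩⟩
      · exact hempty.false (f (Sum.inl z))
      · exact hempty.false (f (Sum.inl z))
    apply le_minDegree_of_forall_le_degree
    intro x
    rw [Nat.succ_le_iff, degree_pos_iff_exists_adj]
    exact no_isolated hH h₁ x
  have h1 : (G'.comap e).minDegree = 1 := by
    apply le_antisymm _ (h01 n _ hMR)
    obtain ⟨f⟩ := hc1
    obtain ⟨x, hx⟩ : ∃ x, f x = none := by
      by_contra hcon
      push Not at hcon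
      have h2 : ∀ x, ∃ y, f x = some y := fun x => Option.ne_none_iff_exists'.1 (hcon x)
      choose g hg using h2
      refine not_arrows_iff.2 hG (arrows_mono ⟨⟨⟨g, ?_⟩, ?_⟩⟩ hMR.1)
      · intro a b hab
        have h3 := f.toHom.map_adj hab
        rw [Copy.coe_toHom, hg a, hg b] at h3
        exact h3
      · intro a b hab
        have h3 : g a = g b := hab
        apply f.injective
        rw [Copy.coe_toHom, hg a, hg b, h3]
    refine ((G'.comap e).minDegree_le_degree x).trans ?_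
    refine Finset.card_le_one.2 ?_
    have key : ∀ a, (G'.comap e).Adj x a → f a = some v := by
      intro a ha
      have h3 := f.toHom.map_adj ha
      rw [Copy.coe_toHom, hx] at h3
      rcases hfa : f a with _ | y
      · rw [hfa] at h3; exact h3.elim
      · rw [hfa] at h3
        have h4 : y ∈ ({v} : Set K) := h3
        rw [Set.mem_singleton_iff.1 h4]
    intro a ha b hb
    rw [mem_neighborFinset] at ha hb
    exact f.injective (by rw [Copy.coe_toHom, key a ha, key b hb])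
  unfold RamseySimple
  have hset : (1 : ℕ) ∈ {d | ∃ (n : ℕ) (G : SimpleGraph (Fin n)), MinRamsey G (pendL B ℓ) ∧
      G.minDegree = d} := ⟨n, G'.comap e, hMR, h1⟩
  have hs2 : s2 (pendL B ℓ) = 1 := by
    unfold s2
    apply le_antisymm
    · exact Nat.sInf_le hset
    · obtain ⟨n₂, G₂, h₂, h₃⟩ := Nat.sInf_mem ⟨1, hset⟩
      rw [← h₃]
      exact h01 n₂ G₂ h₂
  rw [hs2, hdelta]

end Pool.Agent.RS81.H60
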